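import Pool.Agent.Helper37.LR.Leaf
import Mathlib.Combinatorics.Additive.CauchyDavenport

/-!
# Growth of the powers of a finite-dimensional subspace
-/

set_option autoImplicit false
set_option linter.style.haveILetI false

open Module Finset
open scoped Pointwise

namespace Pool.Agent.Helper37.LR

open Pool.Agent.Helper16

section counting

variable {F K L : Type} [Field F] [Field K] [Field L] [Algebra F K] [Algebra K L] [Algebra F L]
  [IsScalarTower F K L] (v : Place K L) {π : L} (hπ : v.val π = WithZero.exp (-1 : ℤ))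

lemma mem_sup_iff (W : Submodule F L) (i : ℤ) :
    i ∈ sup v hπ W ↔ ∃ r ∈ leaf v hπ W i, r ≠ 0 := by
  change leaf v hπ W i ≠ ⊥ ↔ _
  rw [Submodule.ne_bot_iff]

include hπ in
lemma val_pi_zpow (i : ℤ) : v.val (π ^ i) = WithZero.exp (-i) := by
  rw [map_zpow₀, hπ, ← WithZero.exp_zsmul]
  simp

lemma mem_sup_of_val (W : Submodule F L) (i : ℤ) (x : L) (hx : x ∈ W)
    (hv : v.val x = WithZero.exp (-i)) : i ∈ sup v hπ W := by
  rw [mem_sup_iff]
  refine ⟨v.res (x * π ^ (-i)), (mem_leaf v hπ W i _).2 ⟨x, hx, hv.le, rfl⟩, ?_⟩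
  rw [Ne, v.res_eq_zero_iff (mem_ring_of_cut v hπ hv.le), val_mul_zpow v hπ, hv,
    ← WithZero.exp_add]
  simp

lemma add_mem_sup (W W' : Submodule F L) (i j : ℤ) (hi : i ∈ sup v hπ W) (hj : j ∈ sup v hπ W') :
    i + j ∈ sup v hπ (W * W') := by
  rw [mem_sup_iff] at hi hj ⊢
  obtain ⟨r, hr, hr0⟩ := hi
  obtain ⟨r', hr', hr0'⟩ := hj
  exact ⟨r * r', leaf_mul_le v hπ W W' i j (Submodule.mul_mem_mul hr hr'), mul_ne_zero hr0 hr0'⟩

lemma finiteDimensional_mul (W W' : Submodule F L) [FiniteDimensional F W] [FiniteDimensional F W'] :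
    FiniteDimensional F ↥(W * W') :=
  (Submodule.fg_iff_finiteDimensional _).1
    (Submodule.FG.mul ((Submodule.fg_iff_finiteDimensional W).2 inferInstance)
      ((Submodule.fg_iff_finiteDimensional W').2 inferInstance))

lemma finiteDimensional_pow (W : Submodule F L) [FiniteDimensional F W] (n : ℕ) :
    FiniteDimensional F ↥(W ^ n) :=
  (Submodule.fg_iff_finiteDimensional _).1
    (Submodule.FG.pow ((Submodule.fg_iff_finiteDimensional W).2 inferInstance) n)

/-- the finite set of the indices of the nonzero leaves -/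
noncomputable def supf (W : Submodule F L) [FiniteDimensional F W] : Finset ℤ :=
  (sup_finite v hπ W).toFinset

lemma mem_supf (W : Submodule F L) [FiniteDimensional F W] (i : ℤ) :
    i ∈ supf v hπ W ↔ i ∈ sup v hπ W := by
  rw [supf, Set.Finite.mem_toFinset]

lemma zero_mem_supf (W : Submodule F L) [FiniteDimensional F W] (h1 : (1 : L) ∈ W) :
    (0 : ℤ) ∈ supf v hπ W := by
  rw [mem_supf]
  exact mem_sup_of_val v hπ W 0 1 h1 (by simp)

lemma one_mem_pow (W : Submodule F L) (h1 : (1 : L) ∈ W) (n : ℕ) : (1 : L) ∈ W ^ n := by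
  have := Submodule.pow_mem_pow W h1 n
  rwa [one_pow] at this

lemma pow_le_pow' (W : Submodule F L) (h1 : (1 : L) ∈ W) {m n : ℕ} (h : m ≤ n) :
    W ^ m ≤ W ^ n := by
  obtain ⟨d, rfl⟩ := Nat.exists_eq_add_of_le h
  rw [pow_add]
  intro x hx
  have := Submodule.mul_mem_mul hx (one_mem_pow W h1 d)
  rwa [mul_one] at this

/-- the number of the leaves of the powers -/
lemma card_supf_pow (W : Submodule F L) [FiniteDimensional F W] (h1 : (1 : L) ∈ W) (k : ℕ)
    [FiniteDimensional F ↥(W ^ k)] :
    k * (#(supf v hπ W) - 1) + 1 ≤ #(supf v hπ (W ^ k)) := by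
  revert ‹FiniteDimensional F ↥(W ^ k)›
  induction k with
  | zero =>
    intro _
    rw [zero_mul, zero_add]
    exact card_pos.2 ⟨0, zero_mem_supf v hπ _ (one_mem_pow W h1 0)⟩
  | succ k ih =>
    intro _
    haveI := finiteDimensional_pow W k
    have ih' := ih
    have hne : (supf v hπ (W ^ k)).Nonempty := ⟨0, zero_mem_supf v hπ _ (one_mem_pow W h1 k)⟩
    have hne' : (supf v hπ W).Nonempty := ⟨0, zero_mem_supf v hπ _ h1⟩
    have hc := cauchy_davenport_add_of_linearOrder_isCancelAdd hne hne'
    have hsub : supf v hπ (W ^ k) + supf v hπ W ⊆ supf v hπ (W ^ (k + 1)) := by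
      intro i hi
      obtain ⟨a, ha, b, hb, rfl⟩ := mem_add.1 hi
      rw [mem_supf] at ha hb ⊢
      rw [pow_succ]
      exact add_mem_sup v hπ _ _ _ _ ha hb
    have hcard := card_le_card hsub
    have hpos : 0 < #(supf v hπ W) := card_pos.2 hne'
    have : (k + 1) * (#(supf v hπ W) - 1) = k * (#(supf v hπ W) - 1) + (#(supf v hπ W) - 1) := by ring
    omega

end counting

section mulfin

variable {F L : Type} [Field F] [Field L] [Algebra F L]

lemma finrank_le_mul (W W' : Submodule F L) [FiniteDimensional F ↥(W * W')] (x : L) (hx : x ∈ W')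
    (hx0 : x ≠ 0) : finrank F W ≤ finrank F ↥(W * W') := by
  have hinj : Function.Injective (LinearMap.mulRight F x) := fun a b h => by
    simpa [hx0] using h
  have h1 : W.map (LinearMap.mulRight F x) ≤ W * W' := by
    rintro _ ⟨a, ha, rfl⟩
    exact Submodule.mul_mem_mul ha hx
  rw [LinearEquiv.finrank_eq (Submodule.equivMapOfInjective _ hinj W)]
  exact Submodule.finrank_mono h1

/-- multiplication by a nonzero element does not change the dimension of the powers -/
lemma finrank_span_mul_pow (W : Submodule F L) (x : L) (hx0 : x ≠ 0) (n : ℕ) :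
    finrank F ↥((Submodule.span F {x} * W) ^ n) = finrank F ↥(W ^ n) := by
  rw [mul_pow, Submodule.span_pow, Set.singleton_pow]
  have hinj : Function.Injective (LinearMap.mulLeft F (x ^ n)) := fun a b h => by
    simpa [hx0] using h
  have h1 : Submodule.span F {x ^ n} * W ^ n = (W ^ n).map (LinearMap.mulLeft F (x ^ n)) := by
    apply le_antisymm
    · rw [Submodule.mul_le]
      intro a ha b hb
      obtain ⟨c, rfl⟩ := Submodule.mem_span_singleton.1 ha
      refine ⟨c • b, Submodule.smul_mem _ _ hb, ?_⟩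
      simp [LinearMap.mulLeft_apply]
    · rintro _ ⟨b, hb, rfl⟩
      exact Submodule.mul_mem_mul (Submodule.mem_span_singleton_self _) hb
  rw [h1]
  exact (LinearEquiv.finrank_eq (Submodule.equivMapOfInjective _ hinj (W ^ n))).symm

end mulfin

section step

variable {F K L : Type} [Field F] [Field K] [Field L] [Algebra F K] [Algebra K L] [Algebra F L]
  [IsScalarTower F K L] (v : Place K L) {π : L} (hπ : v.val π = WithZero.exp (-1 : ℤ))

include hπ in
/-- the induction step, given the growth of the powers in the residue field -/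
lemma growth_step (s C : ℕ) (y₀ : L) (hy₀ : y₀ ≠ 0) (hv : v.val y₀ < 1) (z : Fin s → K)
    (hind : ∀ (E : Submodule F v.resField) [FiniteDimensional F E], (1 : v.resField) ∈ E →
      (∀ i, algebraMap K v.resField (z i) ∈ E) → ∀ k : ℕ, 1 ≤ k →
      k ^ s * finrank F E ≤ C * finrank F ↥(E ^ (3 ^ s * k)))
    (A : Submodule F L) [FiniteDimensional F A] (h1 : (1 : L) ∈ A) (hy : y₀ ∈ A)
    (hz : ∀ i, algebraMap K L (z i) ∈ A) (k : ℕ) (hk : 1 ≤ k) :
    k ^ (s + 1) * finrank F A ≤ 2 * C * finrank F ↥(A ^ (3 ^ (s + 1) * k)) := by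
  classical
  -- the set of indices has at least two elements
  set S := supf v hπ A with hS
  have h0S : (0 : ℤ) ∈ S := zero_mem_supf v hπ A h1
  have hvy0 : v.val y₀ ≠ 0 := by simpa using hy₀
  have hoS : -WithZero.log (v.val y₀) ∈ S := by
    rw [hS, mem_supf]
    refine mem_sup_of_val v hπ A _ y₀ hy ?_
    rw [neg_neg, WithZero.exp_log hvy0]
  have ho : -WithZero.log (v.val y₀) ≠ 0 := by
    intro h
    rw [← WithZero.exp_log hvy0, ← WithZero.exp_zero, WithZero.exp_lt_exp] at hv
    omega
  have hS2 : 2 ≤ #S := by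
    have : ({0, -WithZero.log (v.val y₀)} : Finset ℤ) ⊆ S := by
      intro i hi
      rw [mem_insert, mem_singleton] at hi
      rcases hi with rfl | rfl
      · exact h0S
      · exact hoS
    have h2 := card_le_card this
    rwa [card_pair (Ne.symm ho)] at h2
  -- the largest leaf
  obtain ⟨i₁, hi₁S, hmax⟩ := S.exists_max_image (fun i => finrank F (leaf v hπ A i)) ⟨0, h0S⟩
  set D := leaf v hπ A i₁ with hD
  set D0 := leaf v hπ A 0 with hD0
  haveI fD : FiniteDimensional F D := finiteDimensional_leaf v hπ A i₁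
  haveI fD0 : FiniteDimensional F D0 := finiteDimensional_leaf v hπ A 0
  have hdimA : finrank F A ≤ #S * finrank F D := by
    rw [finrank_eq_sum v hπ A S (by
      intro i hi
      rw [mem_coe, hS, mem_supf]
      exact hi)]
    calc ∑ i ∈ S, finrank F (leaf v hπ A i) ≤ ∑ _i ∈ S, finrank F D := sum_le_sum hmax
      _ = #S * finrank F D := by rw [sum_const, smul_eq_mul]
  obtain ⟨d, hdD, hd0⟩ := (mem_sup_iff v hπ A i₁).1 ((mem_supf v hπ A i₁).1 hi₁S)
  -- elements of the leaf of index zero
  have hres : ∀ x ∈ A, v.val x ≤ 1 → v.res x ∈ D0 := by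
    intro x hx hx1
    rw [hD0, mem_leaf]
    refine ⟨x, hx, by simpa using hx1, by simp⟩
  have h1D0 : (1 : v.resField) ∈ D0 := by
    have := hres 1 h1 (by simp)
    rwa [v.res_one] at this
  have hzD0 : ∀ i, algebraMap K v.resField (z i) ∈ D0 := by
    intro i
    have := hres _ (hz i) (v.val_algebraMap_le _)
    rwa [v.res_algebraMap] at this
  haveI fDD : FiniteDimensional F ↥(D * D0) :=
    (Submodule.fg_iff_finiteDimensional _).1
      (Submodule.FG.mul ((Submodule.fg_iff_finiteDimensional D).2 inferInstance)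
        ((Submodule.fg_iff_finiteDimensional D0).2 inferInstance))
  have hDD : finrank F D ≤ finrank F ↥(D * D0) := finrank_le_mul D D0 1 h1D0 one_ne_zero
  set E : Submodule F v.resField := Submodule.span F {d⁻¹} * (D * D0) with hE
  have memE : ∀ r ∈ D0, r ∈ E := by
    intro r hr
    have : d⁻¹ * (d * r) ∈ E :=
      Submodule.mul_mem_mul (Submodule.mem_span_singleton_self _) (Submodule.mul_mem_mul hdD hr)
    rwa [inv_mul_cancel_left₀ hd0] at this
  haveI fE : FiniteDimensional F E := by
    rw [hE]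
    exact (Submodule.fg_iff_finiteDimensional _).1
      (Submodule.FG.mul (Submodule.fg_span_singleton _)
        ((Submodule.fg_iff_finiteDimensional (D * D0)).2 inferInstance))
  set n := 3 ^ s * k with hn
  have hind' := hind E (memE 1 h1D0) (fun i => memE _ (hzD0 i)) k hk
  have hdimE : finrank F E = finrank F ↥(D * D0) := by
    have := finrank_span_mul_pow (D * D0) d⁻¹ (inv_ne_zero hd0) 1
    rwa [pow_one, pow_one] at this
  rw [← hn, hdimE, hE, finrank_span_mul_pow (D * D0) d⁻¹ (inv_ne_zero hd0) n] at hind'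
  -- lower bound for the dimension of a power of `A`
  set m := 2 * n + k with hm
  haveI fAk : FiniteDimensional F ↥(A ^ k) :=
    (Submodule.fg_iff_finiteDimensional _).1
      (Submodule.FG.pow ((Submodule.fg_iff_finiteDimensional A).2 inferInstance) k)
  haveI fAm : FiniteDimensional F ↥(A ^ m) :=
    (Submodule.fg_iff_finiteDimensional _).1
      (Submodule.FG.pow ((Submodule.fg_iff_finiteDimensional A).2 inferInstance) m)
  set T := supf v hπ (A ^ k) with hT
  have hTcard : k * (#S - 1) + 1 ≤ #T := card_supf_pow v hπ A h1 k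
  have hleaf : ∀ σ ∈ T, finrank F ↥((D * D0) ^ n) ≤ finrank F (leaf v hπ (A ^ m) (n * i₁ + σ)) := by
    intro σ hσ
    obtain ⟨e, he, he0⟩ := (mem_sup_iff v hπ (A ^ k) σ).1 ((mem_supf v hπ (A ^ k) σ).1 hσ)
    have hle : (D * D0) ^ n * leaf v hπ (A ^ k) σ ≤ leaf v hπ (A ^ m) (n * i₁ + σ) := by
      calc (D * D0) ^ n * leaf v hπ (A ^ k) σ
          ≤ leaf v hπ (A * A) i₁ ^ n * leaf v hπ (A ^ k) σ := by
            gcongr
            have := leaf_mul_le v hπ A A i₁ 0
            rwa [add_zero] at this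
        _ ≤ leaf v hπ ((A * A) ^ n) (n * i₁) * leaf v hπ (A ^ k) σ := by
            gcongr
            exact leaf_pow_le v hπ (A * A) i₁ n
        _ ≤ leaf v hπ ((A * A) ^ n * A ^ k) (n * i₁ + σ) := leaf_mul_le v hπ _ _ _ _
        _ = _ := by
          rw [hm, pow_add, pow_mul A 2 n, sq A]
    haveI := finiteDimensional_leaf v hπ (A ^ m) (n * i₁ + σ)
    haveI : FiniteDimensional F ↥((D * D0) ^ n * leaf v hπ (A ^ k) σ) :=
      Submodule.finiteDimensional_of_le hle
    exact (finrank_le_mul _ _ e he he0).trans (Submodule.finrank_mono hle)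
  have hsum : #T * finrank F ↥((D * D0) ^ n) ≤ finrank F ↥(A ^ m) := by
    have hinj : Set.InjOn (fun σ : ℤ => n * i₁ + σ) (T : Set ℤ) := by
      intro a _ b _ hab
      simpa using hab
    calc #T * finrank F ↥((D * D0) ^ n) = ∑ _σ ∈ T, finrank F ↥((D * D0) ^ n) := by
          rw [sum_const, smul_eq_mul]
      _ ≤ ∑ σ ∈ T, finrank F (leaf v hπ (A ^ m) (n * i₁ + σ)) := sum_le_sum hleaf
      _ = ∑ i ∈ T.image (fun σ : ℤ => n * i₁ + σ), finrank F (leaf v hπ (A ^ m) i) := by
          rw [sum_image hinj]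
      _ ≤ _ := sum_le_finrank v hπ _ _
  have hmm : m ≤ 3 ^ (s + 1) * k := by
    rw [hm, hn]
    have : 1 ≤ 3 ^ s := Nat.one_le_pow _ _ (by norm_num)
    have h3 : k ≤ 3 ^ s * k := Nat.le_mul_of_pos_left k (by omega)
    have h4 : 3 ^ (s + 1) * k = 3 * (3 ^ s * k) := by ring
    omega
  haveI fAM : FiniteDimensional F ↥(A ^ (3 ^ (s + 1) * k)) :=
    (Submodule.fg_iff_finiteDimensional _).1
      (Submodule.FG.pow ((Submodule.fg_iff_finiteDimensional A).2 inferInstance) _)
  have hmono : finrank F ↥(A ^ m) ≤ finrank F ↥(A ^ (3 ^ (s + 1) * k)) :=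
    Submodule.finrank_mono (pow_le_pow' A h1 hmm)
  -- conclusion
  have hkS : k * #S ≤ 2 * #T := by
    obtain ⟨t, ht⟩ := Nat.exists_eq_add_of_le hS2
    rw [ht] at hTcard ⊢
    have e1 : 2 + t - 1 = 1 + t := by omega
    rw [e1] at hTcard
    nlinarith [Nat.zero_le (k * t)]
  calc k ^ (s + 1) * finrank F A ≤ k ^ (s + 1) * (#S * finrank F ↥(D * D0)) := by
        gcongr
        exact hdimA.trans (by gcongr)
    _ = (k * #S) * (k ^ s * finrank F ↥(D * D0)) := by ring
    _ ≤ (2 * #T) * (C * finrank F ↥((D * D0) ^ n)) := by gcongr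
    _ = 2 * C * (#T * finrank F ↥((D * D0) ^ n)) := by ring
    _ ≤ 2 * C * finrank F ↥(A ^ (3 ^ (s + 1) * k)) := by
        gcongr
        exact hsum.trans hmono

end step

section main

/-- the data of a function field of one variable inside a finitely generated extension -/
lemma exists_place {F L : Type} [Field F] [Field L] [Algebra F L] [Algebra.EssFiniteType F L]
    (s : ℕ) (y : Fin (s + 1) → L) (hy : IsTranscendenceBasis F y) :
    ∃ (K : IntermediateField F L) (z : Fin s → K) (v : Place K L),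
      (∀ i, (z i : L) = y i.succ) ∧ v.val (y 0) < 1 ∧ Algebra.EssFiniteType F v.resField ∧
      IsTranscendenceBasis F (fun i => algebraMap K v.resField (z i)) := by
  set K : IntermediateField F L := IntermediateField.adjoin F (Set.range fun i : Fin s => y i.succ)
    with hK
  have hmem : ∀ i : Fin s, y i.succ ∈ K := fun i =>
    IntermediateField.subset_adjoin _ _ ⟨i, rfl⟩
  set z : Fin s → K := fun i => ⟨y i.succ, hmem i⟩ with hz
  have hzy : ∀ i, (z i : L) = y i.succ := fun i => rfl
  -- `z` is a transcendence basis of `K`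
  have hai : AlgebraicIndependent F (fun i : Fin s => y i.succ) :=
    hy.1.comp _ (Fin.succ_injective s)
  have haiz : AlgebraicIndependent F z := by
    have h1 : AlgebraicIndependent F (K.val ∘ z) := hai
    exact h1.of_comp K.val
  have halg : Algebra.IsAlgebraic (IntermediateField.adjoin F (Set.range z)) K := by
    have htop : IntermediateField.adjoin F (Set.range z) = ⊤ := by
      apply IntermediateField.map_injective K.val
      rw [IntermediateField.adjoin_map, ← Set.range_comp]
      have e1 : (K.val ∘ z) = fun i : Fin s => y i.succ := rfl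
      rw [e1, ← hK, ← AlgHom.fieldRange_eq_map, IntermediateField.fieldRange_val]
    rw [htop]
    constructor
    intro a
    exact isAlgebraic_algebraMap (⟨a, IntermediateField.mem_top⟩ : (⊤ : IntermediateField F K))
  have hbz : IsTranscendenceBasis F z :=
    haiz.isTranscendenceBasis_iff_isAlgebraic.2
      ((IntermediateField.isAlgebraic_adjoin_iff_top).1 halg)
  -- the transcendence degrees
  haveI hEL : Algebra.EssFiniteType K L := Algebra.EssFiniteType.of_comp F K L
  have htr : Algebra.trdeg K L = 1 := by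
    have h1 := trdeg_add_eq F K (A := L)
    have h2 : Algebra.trdeg F K = s := by
      rw [← hbz.cardinalMk_eq_trdeg]; simp
    have h3 : Algebra.trdeg F L = (s + 1 : ℕ) := by
      rw [← hy.cardinalMk_eq_trdeg]; simp
    rw [h2, h3] at h1
    have hfin : Algebra.trdeg K L < Cardinal.aleph0 := by
      refine lt_of_le_of_lt ?_ (Cardinal.natCast_lt_aleph0 (n := s + 1))
      rw [← h1]
      exact self_le_add_left _ _
    obtain ⟨t, ht⟩ := Cardinal.lt_aleph0.1 hfin
    rw [ht] at h1 ⊢
    have : s + t = s + 1 := by exact_mod_cast h1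
    have : t = 1 := by omega
    rw [this, Nat.cast_one]
  have hFF : IsFunctionField K L := ⟨hEL, htr⟩
  -- the place
  have hy0 : Transcendental K (y 0) := by
    rw [hK, IntermediateField.transcendental_adjoin_iff]
    have h0 : (0 : Fin (s + 1)) ∉ Set.range (Fin.succ : Fin s → Fin (s + 1)) := by
      rintro ⟨i, hi⟩
      exact Fin.succ_ne_zero i hi
    have := hy.1.transcendental_adjoin h0
    rwa [← Set.range_comp] at this
  obtain ⟨S, hS, hsum, hpos⟩ := hFF.zeros (y 0) hy0
  have hne : S.Nonempty := by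
    by_contra h
    rw [not_nonempty_iff_eq_empty] at h
    rw [h, sum_empty] at hsum
    omega
  obtain ⟨v, hv⟩ := hne
  haveI hfr : Module.Finite K v.resField := v.finite_resField hFF
  haveI hEK : Algebra.EssFiniteType F K := by
    rw [IntermediateField.essFiniteType_iff]
    exact IntermediateField.fg_adjoin_of_finite (Set.finite_range _)
  refine ⟨K, z, v, hzy, (hS v).1 hv, ?_, ?_⟩
  · exact Algebra.EssFiniteType.comp F K v.resField
  · exact hbz.algebraMap_comp (A := v.resField)

theorem growth_aux (s : ℕ) : ∃ C : ℕ, 0 < C ∧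
    ∀ (F : Type) [Field F] (L : Type) [Field L] [Algebra F L] [Algebra.EssFiniteType F L]
      (y : Fin s → L), IsTranscendenceBasis F y → ∀ (A : Submodule F L) [FiniteDimensional F A],
      (1 : L) ∈ A → (∀ i, y i ∈ A) → ∀ k : ℕ, 1 ≤ k →
      k ^ s * finrank F A ≤ C * finrank F ↥(A ^ (3 ^ s * k)) := by
  induction s with
  | zero =>
    refine ⟨1, one_pos, ?_⟩
    intro F _ L _ _ _ y hy A _ h1 hyA k hk
    haveI : FiniteDimensional F ↥(A ^ (3 ^ 0 * k)) :=
      (Submodule.fg_iff_finiteDimensional _).1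
        (Submodule.FG.pow ((Submodule.fg_iff_finiteDimensional A).2 inferInstance) _)
    rw [pow_zero, one_mul, one_mul]
    apply Submodule.finrank_mono
    have := pow_le_pow' A h1 (m := 1) (n := 3 ^ 0 * k) (by simpa using hk)
    rwa [pow_one] at this
  | succ s ih =>
    obtain ⟨C, hC, ih⟩ := ih
    refine ⟨2 * C, by omega, ?_⟩
    intro F _ L _ _ _ y hy A _ h1 hyA k hk
    obtain ⟨K, z, v, hz, hv, hE, hb⟩ := exists_place s y hy
    obtain ⟨π, -, hπ⟩ := v.exists_uniformizer
    have hy0 : y 0 ≠ 0 := hy.1.ne_zero 0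
    haveI := hE
    exact growth_step v hπ s C (y 0) hy0 hv z
      (fun E _ h1E hzE k hk => ih F v.resField _ hb E h1E hzE k hk) A h1 (hyA 0)
      (fun i => by
        have := hyA i.succ
        rw [← hz i] at this
        exact this) k hk

end main

end Pool.Agent.Helper37.LR
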