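import Pool.Agent.Helper21.LR.Stmts
import Pool.Agent.Helper37.LR.Growth

/-!
# MP_6358c9_nt: the geometric growth statement `SGrow`
-/

set_option autoImplicit false
set_option linter.style.haveILetI false

open Module MvPolynomial

namespace Pool.Agent.Helper37.LR

open Pool.Agent.Helper21.LR

section poly

variable {m : ℕ} {F L : Type} [Field F] [Field L] [Algebra F L]

/-- the polynomial expressions of degree at most `X` -/
noncomputable def PP (ξ : Fin m → L) (X : ℕ) : Submodule F L :=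
  (restrictTotalDegree (Fin m) F X).map (aeval ξ).toLinearMap

lemma mem_PP (ξ : Fin m → L) (X : ℕ) (z : L) :
    z ∈ PP (F := F) ξ X ↔ ∃ Q : MvPolynomial (Fin m) F, Q.totalDegree ≤ X ∧ aeval ξ Q = z := by
  simp only [PP, Submodule.mem_map, mem_restrictTotalDegree]
  rfl

instance (ξ : Fin m → L) (X : ℕ) : FiniteDimensional F ↥(PP (F := F) ξ X) := by
  unfold PP
  infer_instance

lemma one_mem_PP (ξ : Fin m → L) (X : ℕ) : (1 : L) ∈ PP (F := F) ξ X :=
  (mem_PP ξ X 1).2 ⟨1, by simp, by simp⟩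

lemma var_mem_PP (ξ : Fin m → L) (X : ℕ) (hX : 1 ≤ X) (j : Fin m) : ξ j ∈ PP (F := F) ξ X :=
  (mem_PP ξ X _).2 ⟨MvPolynomial.X j, by rw [totalDegree_X]; exact hX, by simp⟩

lemma PP_mono (ξ : Fin m → L) {X Y : ℕ} (h : X ≤ Y) : PP (F := F) ξ X ≤ PP ξ Y := by
  intro z hz
  obtain ⟨Q, hQ, rfl⟩ := (mem_PP ξ X z).1 hz
  exact (mem_PP ξ Y _).2 ⟨Q, hQ.trans h, rfl⟩

lemma PP_mul_le (ξ : Fin m → L) (X Y : ℕ) :
    PP (F := F) ξ X * PP ξ Y ≤ PP ξ (X + Y) := by
  rw [Submodule.mul_le]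
  intro a ha b hb
  obtain ⟨Q, hQ, rfl⟩ := (mem_PP ξ X a).1 ha
  obtain ⟨R, hR, rfl⟩ := (mem_PP ξ Y b).1 hb
  exact (mem_PP ξ _ _).2 ⟨Q * R, (totalDegree_mul _ _).trans (by omega), by rw [map_mul]⟩

lemma PP_pow_le (ξ : Fin m → L) (X n : ℕ) : PP (F := F) ξ X ^ n ≤ PP ξ (n * X) := by
  induction n with
  | zero =>
    rw [pow_zero, Submodule.one_le]
    exact one_mem_PP ξ _
  | succ n ih =>
    rw [pow_succ]
    calc PP (F := F) ξ X ^ n * PP ξ X ≤ PP ξ (n * X) * PP ξ X := by gcongr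
      _ ≤ PP ξ (n * X + X) := PP_mul_le ξ _ _
      _ = _ := by congr 1; ring

/-- growth of the Hilbert function -/
lemma growth_PP (s C : ℕ)
    (hC : ∀ (F : Type) [Field F] (L : Type) [Field L] [Algebra F L] [Algebra.EssFiniteType F L]
      (y : Fin s → L), IsTranscendenceBasis F y → ∀ (A : Submodule F L) [FiniteDimensional F A],
      (1 : L) ∈ A → (∀ i, y i ∈ A) → ∀ k : ℕ, 1 ≤ k →
      k ^ s * finrank F A ≤ C * finrank F ↥(A ^ (3 ^ s * k)))
    [Algebra.EssFiniteType F L] (ξ : Fin m → L) (σ : Fin s → Fin m)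
    (hσ : IsTranscendenceBasis F (fun i => ξ (σ i))) (X k : ℕ) (hX : 1 ≤ X) (hk : 1 ≤ k) :
    k ^ s * finrank F (PP (F := F) ξ X) ≤ C * finrank F (PP (F := F) ξ (3 ^ s * k * X)) := by
  refine (hC F L _ hσ (PP ξ X) (one_mem_PP ξ X) (fun i => var_mem_PP ξ X hX _) k hk).trans ?_
  gcongr
  exact Submodule.finrank_mono (PP_pow_le ξ X _)

end poly

lemma polySpan_eq {m : ℕ} (ξ : Fin m → ℂ) (X : ℕ) : polySpan ξ X = PP (F := ℚ) ξ X := by
  apply le_antisymm
  · rw [polySpan, Submodule.span_le]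
    rintro z ⟨Q, hQ, rfl⟩
    refine (mem_PP ξ X _).2 ⟨MvPolynomial.map (algebraMap ℤ ℚ) Q,
      (Finset.sup_mono (support_map_subset _ _)).trans hQ, ?_⟩
    rw [aeval_map_algebraMap]
  · intro z hz
    obtain ⟨Q, hQ, rfl⟩ := (mem_PP ξ X z).1 hz
    rw [Q.as_sum, map_sum]
    refine Submodule.sum_mem _ fun α hα => ?_
    have h1 : aeval ξ (monomial α (Q.coeff α)) =
        (Q.coeff α) • aeval ξ (monomial α (1 : ℤ)) := by
      rw [aeval_monomial, aeval_monomial, Algebra.smul_def]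
      simp
    rw [h1]
    refine Submodule.smul_mem _ _ (Submodule.subset_span ⟨monomial α 1, ?_, rfl⟩)
    rw [totalDegree_monomial _ one_ne_zero]
    exact (le_totalDegree hα).trans hQ

lemma isAlgebraic_int_rat : Algebra.IsAlgebraic ℤ ℚ :=
  (IsFractionRing.comap_isAlgebraic_iff (A := ℤ) (K := ℚ) (C := ℚ)).2 inferInstance

section general

variable {F Ω : Type} [Field F] [Field Ω] [Algebra F Ω]

lemma le_trdeg_of_subset (T : Set Ω) (I : Set Ω) (hI : I ⊆ T)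
    (h2 : AlgebraicIndependent F (fun i : I => (i : Ω))) :
    Cardinal.mk I ≤ Algebra.trdeg F (IntermediateField.adjoin F T) := by
  set L := IntermediateField.adjoin F T
  have h4 : AlgebraicIndependent F
      (fun i : I => (⟨i, IntermediateField.subset_adjoin _ _ (hI i.2)⟩ : L)) := by
    have h5 : AlgebraicIndependent F (L.val ∘
      (fun i : I => (⟨i, IntermediateField.subset_adjoin _ _ (hI i.2)⟩ : L))) := h2
    exact h5.of_comp L.val
  exact h4.cardinalMk_le_trdeg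

lemma le_of_trdeg (T : Set Ω) (I : Set Ω) (hI : I ⊆ T)
    (h2 : AlgebraicIndependent F (fun i : I => (i : Ω))) (r s : ℕ) (hr : Cardinal.mk I = r)
    (hs : Algebra.trdeg F (IntermediateField.adjoin F T) = s) : r ≤ s := by
  have h6 := le_trdeg_of_subset T I hI h2
  rw [hr, hs] at h6
  exact_mod_cast h6

lemma exists_index {m : ℕ} (ξ : Fin m → Ω) : ∃ (s : ℕ) (σ : Fin s → Fin m)
    (ξ' : Fin m → IntermediateField.adjoin F (Set.range ξ)), (∀ j, (ξ' j : Ω) = ξ j) ∧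
    Algebra.trdeg F (IntermediateField.adjoin F (Set.range ξ)) = s ∧ s ≤ m ∧
    IsTranscendenceBasis F (fun i => ξ' (σ i)) := by
  set L := IntermediateField.adjoin F (Set.range ξ) with hL
  set ξ' : Fin m → L := fun j => ⟨ξ j, IntermediateField.subset_adjoin _ _ ⟨j, rfl⟩⟩ with hξ'
  have htop : IntermediateField.adjoin F (Set.range ξ') = ⊤ := by
    apply IntermediateField.map_injective L.val
    rw [IntermediateField.adjoin_map, ← Set.range_comp]
    have e1 : (L.val ∘ ξ') = ξ := rfl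
    rw [e1, ← hL, ← AlgHom.fieldRange_eq_map, IntermediateField.fieldRange_val]
  have halg : Algebra.IsAlgebraic (IntermediateField.adjoin F (Set.range ξ')) L := by
    rw [htop]
    constructor
    intro a
    exact isAlgebraic_algebraMap (⟨a, IntermediateField.mem_top⟩ : (⊤ : IntermediateField F L))
  haveI := (IntermediateField.isAlgebraic_adjoin_iff_top).1 halg
  obtain ⟨t, hts, ht⟩ := exists_isTranscendenceBasis_subset (R := F) (Set.range ξ')
  have htf : t.Finite := (Set.finite_range ξ').subset hts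
  haveI := htf.fintype
  set e := Fintype.equivFin t
  have hpre : ∀ i : Fin (Fintype.card t), ∃ j, ξ' j = (e.symm i : L) := fun i => hts (e.symm i).2
  choose σ hσ using hpre
  have hb : IsTranscendenceBasis F (fun i => ξ' (σ i)) := by
    have h1 : (fun i => ξ' (σ i)) = (fun x : t => (x : L)) ∘ e.symm := by
      funext i; exact hσ i
    rw [h1, isTranscendenceBasis_equiv]
    exact ht
  refine ⟨Fintype.card t, σ, ξ', fun j => rfl, ?_, ?_, hb⟩
  · rw [← ht.cardinalMk_eq_trdeg, Cardinal.mk_fintype]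
  · have hinj : Function.Injective σ := by
      intro a b hab
      have h1 : (e.symm a : L) = e.symm b := by rw [← hσ, ← hσ, hab]
      exact e.symm.injective (Subtype.ext h1)
    simpa using Fintype.card_le_of_injective σ hinj

lemma PP_map {L : Type} [Field L] [Algebra F L] {m : ℕ} (f : L →ₐ[F] Ω) (ξ' : Fin m → L) (Y : ℕ) :
    PP (F := F) (fun j => f (ξ' j)) Y = (PP (F := F) ξ' Y).map f.toLinearMap := by
  ext z
  rw [mem_PP, Submodule.mem_map]
  constructor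
  · rintro ⟨Q, hQ, rfl⟩
    refine ⟨aeval ξ' Q, (mem_PP ξ' Y _).2 ⟨Q, hQ, rfl⟩, ?_⟩
    exact comp_aeval_apply ξ' f Q
  · rintro ⟨w, hw, rfl⟩
    obtain ⟨Q, hQ, rfl⟩ := (mem_PP ξ' Y w).1 hw
    exact ⟨Q, hQ, (comp_aeval_apply ξ' f Q).symm⟩

lemma finrank_PP_map {L : Type} [Field L] [Algebra F L] {m : ℕ} (f : L →ₐ[F] Ω) (ξ' : Fin m → L)
    (Y : ℕ) : finrank F (PP (F := F) ξ' Y) = finrank F (PP (F := F) (fun j => f (ξ' j)) Y) := by
  rw [PP_map f ξ' Y]
  exact (Submodule.equivMapOfInjective f.toLinearMap f.injective _).finrank_eq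

end general

lemma growth_PP_aux {F Ω : Type} [Field F] [Field Ω] [Algebra F Ω] (L : IntermediateField F Ω)
    [Algebra.EssFiniteType F L] (s C : ℕ)
    (hC : ∀ (F : Type) [Field F] (L : Type) [Field L] [Algebra F L] [Algebra.EssFiniteType F L]
      (y : Fin s → L), IsTranscendenceBasis F y → ∀ (A : Submodule F L) [FiniteDimensional F A],
      (1 : L) ∈ A → (∀ i, y i ∈ A) → ∀ k : ℕ, 1 ≤ k →
      k ^ s * finrank F A ≤ C * finrank F ↥(A ^ (3 ^ s * k))) {m : ℕ}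
    (ξ' : Fin m → L) (σ : Fin s → Fin m)
    (hσ : IsTranscendenceBasis F (fun i => ξ' (σ i))) (X k : ℕ) (hX : 1 ≤ X) (hk : 1 ≤ k) :
    k ^ s * finrank F (PP (F := F) (fun j => (ξ' j : Ω)) X) ≤
      C * finrank F (PP (F := F) (fun j => (ξ' j : Ω)) (3 ^ s * k * X)) := by
  have h1 := growth_PP s C hC ξ' σ hσ X k hX hk
  rwa [finrank_PP_map L.val ξ' X, finrank_PP_map L.val ξ' _] at h1

/-- growth of the Hilbert function of a point of a field -/
lemma growth_PP' (s : ℕ) : ∃ C : ℕ, 0 < C ∧ ∀ (F Ω : Type) [Field F] [Field Ω] [Algebra F Ω] (m : ℕ)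
    (ξ : Fin m → Ω), Algebra.trdeg F (IntermediateField.adjoin F (Set.range ξ)) = s →
    ∀ X k : ℕ, 1 ≤ X → 1 ≤ k →
    k ^ s * finrank F (PP (F := F) ξ X) ≤ C * finrank F (PP (F := F) ξ (3 ^ s * k * X)) := by
  obtain ⟨C, hC0, hC⟩ := growth_aux s
  refine ⟨C, hC0, ?_⟩
  intro F Ω _ _ _ m ξ hs X k hX hk
  obtain ⟨s', σ, ξ', hξ', hs', -, hb⟩ := exists_index (F := F) ξ
  have hss : s = s' := by
    rw [hs] at hs'
    exact_mod_cast hs'
  subst hss
  haveI : Algebra.EssFiniteType F (IntermediateField.adjoin F (Set.range ξ)) := by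
    rw [IntermediateField.essFiniteType_iff]
    exact IntermediateField.fg_adjoin_of_finite (Set.finite_range _)
  have h1 := growth_PP_aux _ s C hC ξ' σ hb X k hX hk
  have h2 : (fun j => (ξ' j : Ω)) = ξ := funext hξ'
  rwa [h2] at h1

lemma exists_indep {m : ℕ} (ξ : Fin m → ℂ) (r : ℕ) (h : trd ξ = r) :
    ∃ I : Set ℂ, I ⊆ Set.range ξ ∧ AlgebraicIndependent ℚ (fun i : I => (i : ℂ)) ∧
      Cardinal.mk I = r := by
  haveI := isAlgebraic_int_rat
  obtain ⟨I, hI⟩ := (AlgebraicIndependent.matroid ℤ ℂ).exists_isBasis' (Set.range ξ)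
  have h1 : AlgebraicIndependent ℤ (fun i : I => (i : ℂ)) := hI.indep
  have h2 : AlgebraicIndependent ℚ (fun i : I => (i : ℂ)) := h1.extendScalars ℚ
  have h3 : I.encard = r := by
    rw [hI.encard_eq_eRk]; exact h
  have h7 : Cardinal.mk I = r := by
    rw [Set.encard, ENat.card] at h3
    exact Cardinal.toENat_eq_natCast.1 h3
  exact ⟨I, hI.subset, h2, h7⟩

theorem hilb_growth (m : ℕ) : ∃ D : ℕ, 0 < D ∧ ∀ (r : ℕ) (ξ : Fin m → ℂ), trd ξ = r →
    ∀ X K : ℕ, 1 ≤ X → 1 ≤ K →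
    K ^ r * finrank ℚ (PP (F := ℚ) ξ X) ≤ D * finrank ℚ (PP (F := ℚ) ξ (K * X)) := by
  choose C hC0 hC using growth_PP'
  set M := ∑ s ∈ Finset.range (m + 1), C s with hM
  have hCM : ∀ s ≤ m, C s ≤ M := by
    intro s hs
    rw [hM]
    exact Finset.single_le_sum (f := C) (fun _ _ => Nat.zero_le _) (Finset.mem_range.2 (by omega))
  have hM1 : 1 ≤ M := (hC0 0).trans_le (hCM 0 (Nat.zero_le _))
  refine ⟨M * (2 * 3 ^ m) ^ m, by positivity, ?_⟩
  intro r ξ hr X K hX hK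
  obtain ⟨s, σ, ξ', hξ', hs, hsm, -⟩ := exists_index (F := ℚ) ξ
  have hrs : r ≤ s := by
    obtain ⟨I, hI, h1, h2⟩ := exists_indep ξ r hr
    exact le_of_trdeg (Set.range ξ) I hI h1 r s h2 hs
  have hconst : (2 * 3 ^ s) ^ s ≤ (2 * 3 ^ m) ^ m := by
    calc (2 * 3 ^ s) ^ s ≤ (2 * 3 ^ m) ^ s := by gcongr; norm_num
      _ ≤ (2 * 3 ^ m) ^ m := Nat.pow_le_pow_right (by positivity) hsm
  have hKs : K ^ r ≤ K ^ s := Nat.pow_le_pow_right hK hrs
  refine (Nat.mul_le_mul_right _ hKs).trans ?_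
  by_cases hK3 : K < 3 ^ s
  · have h1 : K ^ s ≤ (2 * 3 ^ s) ^ s := by gcongr; omega
    have h2 : finrank ℚ (PP (F := ℚ) ξ X) ≤ finrank ℚ (PP (F := ℚ) ξ (K * X)) :=
      Submodule.finrank_mono (PP_mono ξ (Nat.le_mul_of_pos_left X hK))
    calc K ^ s * finrank ℚ (PP (F := ℚ) ξ X)
        ≤ (2 * 3 ^ m) ^ m * finrank ℚ (PP (F := ℚ) ξ (K * X)) :=
          Nat.mul_le_mul (h1.trans hconst) h2
      _ ≤ M * (2 * 3 ^ m) ^ m * finrank ℚ (PP (F := ℚ) ξ (K * X)) := by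
          gcongr
          exact Nat.le_mul_of_pos_left _ hM1
  · rw [not_lt] at hK3
    set k := K / 3 ^ s with hk
    have h3 : 0 < 3 ^ s := by positivity
    have hk1 : 1 ≤ k := (Nat.one_le_div_iff h3).2 hK3
    have hkK : 3 ^ s * k ≤ K := Nat.mul_div_le K (3 ^ s)
    have hKk : K ≤ 2 * 3 ^ s * k := by
      have h4 := Nat.lt_mul_div_succ K h3
      have h5 : 3 ^ s * (K / 3 ^ s + 1) = 3 ^ s * k + 3 ^ s := by rw [mul_add, mul_one]
      have h6 : 3 ^ s ≤ 3 ^ s * k := Nat.le_mul_of_pos_right _ hk1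
      have h7 : 2 * 3 ^ s * k = 3 ^ s * k + 3 ^ s * k := by ring
      omega
    have h8 := hC s ℚ ℂ m ξ hs X k hX hk1
    have h9 : finrank ℚ (PP (F := ℚ) ξ (3 ^ s * k * X)) ≤ finrank ℚ (PP (F := ℚ) ξ (K * X)) :=
      Submodule.finrank_mono (PP_mono ξ (Nat.mul_le_mul_right X hkK))
    calc K ^ s * finrank ℚ (PP (F := ℚ) ξ X)
        ≤ (2 * 3 ^ s * k) ^ s * finrank ℚ (PP (F := ℚ) ξ X) := by gcongr
      _ = (2 * 3 ^ s) ^ s * (k ^ s * finrank ℚ (PP (F := ℚ) ξ X)) := by rw [mul_pow, mul_assoc]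
      _ ≤ (2 * 3 ^ m) ^ m * (M * finrank ℚ (PP (F := ℚ) ξ (K * X))) :=
          Nat.mul_le_mul hconst (h8.trans (Nat.mul_le_mul (hCM s hsm) h9))
      _ = _ := by ring

/-- the statement `SGrow` -/
theorem grow : SGrow := by
  intro m
  obtain ⟨D, hD, hgr⟩ := hilb_growth m
  have hD' : (0 : ℝ) < D := by exact_mod_cast hD
  refine ⟨1 / D, by positivity, ?_⟩
  intro r ξ F hF X K hX hK A hA
  rw [polySpan_eq] at hA ⊢
  by_cases hA0 : A = ⊥
  · rw [hA0, finrank_bot]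
    simp
  obtain ⟨a, ha, ha0⟩ := (Submodule.ne_bot_iff A).1 hA0
  haveI : FiniteDimensional ℚ A := Submodule.finiteDimensional_of_le hA
  haveI : FiniteDimensional ℚ ↥(PP (F := ℚ) ξ (K * X) * A) := finiteDimensional_mul _ _
  have h1 : finrank ℚ (PP (F := ℚ) ξ (K * X)) ≤ finrank ℚ ↥(A * PP (F := ℚ) ξ (K * X)) := by
    rw [mul_comm A]
    exact finrank_le_mul _ _ a ha ha0
  have h2 : finrank ℚ A ≤ finrank ℚ (PP (F := ℚ) ξ X) := Submodule.finrank_mono hA
  have h3 := hgr r ξ hF.dim X K hX hK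
  have h4 : K ^ r * finrank ℚ A ≤ D * finrank ℚ ↥(A * PP (F := ℚ) ξ (K * X)) :=
    (Nat.mul_le_mul_left _ h2).trans (h3.trans (Nat.mul_le_mul_left _ h1))
  have h5 : (K : ℝ) ^ r * (finrank ℚ A : ℝ) ≤ D * (finrank ℚ ↥(A * PP (F := ℚ) ξ (K * X)) : ℝ) := by
    exact_mod_cast h4
  calc 1 / (D : ℝ) * (K : ℝ) ^ r * (finrank ℚ A : ℝ)
      = 1 / (D : ℝ) * ((K : ℝ) ^ r * (finrank ℚ A : ℝ)) := by ring
    _ ≤ 1 / (D : ℝ) * (D * (finrank ℚ ↥(A * PP (F := ℚ) ξ (K * X)) : ℝ)) := by gcongr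
    _ = _ := by field_simp

end Pool.Agent.Helper37.LR
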