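import Pool.Agent.Helper16.FF8

/-!
# Growth of the powers of a finite-dimensional subspace: leaves of a discrete valuation
-/

set_option autoImplicit false
set_option linter.style.haveILetI false

open Module Finset

namespace Pool.Agent.Helper37.LR

open Pool.Agent.Helper16

section leaves

variable {F K L : Type} [Field F] [Field K] [Field L] [Algebra F K] [Algebra K L] [Algebra F L]
  [IsScalarTower F K L] (v : Place K L)

lemma val_algebraMap_le' (a : F) : v.val (algebraMap F L a) ≤ 1 := by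
  rw [IsScalarTower.algebraMap_apply F K L]
  exact v.val_algebraMap_le _

lemma res_algebraMap' (a : F) : v.res (algebraMap F L a) = algebraMap F v.resField a := by
  rw [IsScalarTower.algebraMap_apply F K L, v.res_algebraMap,
    ← IsScalarTower.algebraMap_apply F K v.resField]

/-- the part of order at least `i` -/
def cut (W : Submodule F L) (i : ℤ) : Submodule F L where
  carrier := {x | x ∈ W ∧ v.val x ≤ WithZero.exp (-i)}
  add_mem' := fun ha hb => ⟨W.add_mem ha.1 hb.1, (v.val.map_add _ _).trans (max_le ha.2 hb.2)⟩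
  zero_mem' := ⟨W.zero_mem, by rw [map_zero]; exact zero_le⟩
  smul_mem' := fun c x hx => ⟨W.smul_mem c hx.1, by
    rw [Algebra.smul_def, map_mul]
    calc v.val (algebraMap F L c) * v.val x ≤ 1 * v.val x := by
          gcongr; exact val_algebraMap_le' v c
      _ = v.val x := one_mul _
      _ ≤ _ := hx.2⟩

lemma mem_cut (W : Submodule F L) (i : ℤ) (x : L) :
    x ∈ cut v W i ↔ x ∈ W ∧ v.val x ≤ WithZero.exp (-i) := Iff.rfl

lemma cut_le (W : Submodule F L) (i : ℤ) : cut v W i ≤ W := fun _ hx => hx.1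

variable {π : L} (hπ : v.val π = WithZero.exp (-1 : ℤ))

include hπ in
lemma val_mul_zpow (x : L) (i : ℤ) : v.val (x * π ^ (-i)) = v.val x * WithZero.exp i := by
  rw [map_mul, map_zpow₀, hπ, ← WithZero.exp_zsmul]
  simp

include hπ in
lemma mem_ring_of_cut {x : L} {i : ℤ} (hx : v.val x ≤ WithZero.exp (-i)) :
    x * π ^ (-i) ∈ v.ring := by
  rw [v.mem_ring, val_mul_zpow v hπ]
  calc v.val x * WithZero.exp i ≤ WithZero.exp (-i) * WithZero.exp i := by gcongr
    _ = 1 := by rw [← WithZero.exp_add]; simp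

/-- the leading coefficient map -/
noncomputable def lam (W : Submodule F L) (i : ℤ) : cut v W i →ₗ[F] v.resField where
  toFun x := v.res ((x : L) * π ^ (-i))
  map_add' x y := by
    rw [← v.res_add (mem_ring_of_cut v hπ x.2.2) (mem_ring_of_cut v hπ y.2.2), ← add_mul]
    rfl
  map_smul' c x := by
    have h1 : ((c • x : cut v W i) : L) * π ^ (-i) = algebraMap F L c * ((x : L) * π ^ (-i)) := by
      rw [Submodule.coe_smul, Algebra.smul_def, mul_assoc]
    rw [h1, v.res_mul (val_algebraMap_le' v c) (mem_ring_of_cut v hπ x.2.2), res_algebraMap',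
      RingHom.id_apply, Algebra.smul_def]

/-- the leaf of index `i` -/
noncomputable def leaf (W : Submodule F L) (i : ℤ) : Submodule F v.resField :=
  LinearMap.range (lam v hπ W i)

lemma mem_leaf (W : Submodule F L) (i : ℤ) (r : v.resField) :
    r ∈ leaf v hπ W i ↔ ∃ x ∈ W, v.val x ≤ WithZero.exp (-i) ∧ v.res (x * π ^ (-i)) = r := by
  constructor
  · rintro ⟨x, rfl⟩
    exact ⟨x, x.2.1, x.2.2, rfl⟩
  · rintro ⟨x, h1, h2, rfl⟩
    exact ⟨⟨x, h1, h2⟩, rfl⟩

lemma val_lt_iff (x : L) (i : ℤ) :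
    v.val x * WithZero.exp i < 1 ↔ v.val x ≤ WithZero.exp (-(i + 1)) := by
  by_cases hx : x = 0
  · rw [hx, map_zero, zero_mul]
    exact ⟨fun _ => zero_le, fun _ => zero_lt_one⟩
  have h7 : v.val x ≠ 0 := by simpa using hx
  rw [← WithZero.exp_log h7, ← WithZero.exp_add, ← WithZero.exp_zero, WithZero.exp_lt_exp,
    WithZero.exp_le_exp]
  omega

lemma lam_eq_zero_iff (W : Submodule F L) (i : ℤ) (x : cut v W i) :
    lam v hπ W i x = 0 ↔ (x : L) ∈ cut v W (i + 1) := by
  change v.res ((x : L) * π ^ (-i)) = 0 ↔ _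
  rw [v.res_eq_zero_iff (mem_ring_of_cut v hπ x.2.2), val_mul_zpow v hπ, val_lt_iff, mem_cut]
  exact ⟨fun h => ⟨x.2.1, h⟩, fun h => h.2⟩

lemma cut_succ_le (W : Submodule F L) (i : ℤ) : cut v W (i + 1) ≤ cut v W i := by
  intro x hx
  refine ⟨hx.1, hx.2.trans ?_⟩
  rw [WithZero.exp_le_exp]
  omega

lemma cut_antitone (W : Submodule F L) : Antitone (cut v W) := by
  intro i j hij x hx
  refine ⟨hx.1, hx.2.trans ?_⟩
  rw [WithZero.exp_le_exp]
  omega

lemma finrank_cut (W : Submodule F L) [FiniteDimensional F W] (i : ℤ) :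
    finrank F (cut v W i) = finrank F (leaf v hπ W i) + finrank F (cut v W (i + 1)) := by
  haveI : FiniteDimensional F (cut v W i) := Submodule.finiteDimensional_of_le (cut_le v W i)
  rw [← LinearMap.finrank_range_add_finrank_ker (lam v hπ W i)]
  congr 1
  have h1 : (LinearMap.ker (lam v hπ W i)).map (cut v W i).subtype = cut v W (i + 1) := by
    ext x
    rw [Submodule.mem_map]
    constructor
    · rintro ⟨y, hy, rfl⟩
      exact (lam_eq_zero_iff v hπ W i y).1 hy
    · intro hx
      exact ⟨⟨x, cut_succ_le v W i hx⟩, (lam_eq_zero_iff v hπ W i _).2 hx, rfl⟩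
  rw [← h1]
  exact (LinearEquiv.finrank_eq (Submodule.equivMapOfInjective _ (Submodule.injective_subtype _) _))

lemma finiteDimensional_leaf (W : Submodule F L) [FiniteDimensional F W] (i : ℤ) :
    FiniteDimensional F (leaf v hπ W i) := by
  haveI : FiniteDimensional F (cut v W i) := Submodule.finiteDimensional_of_le (cut_le v W i)
  exact LinearMap.finiteDimensional_range _

lemma exists_cut_eq (W : Submodule F L) [FiniteDimensional F W] : ∃ i₀ : ℤ, cut v W i₀ = W := by
  obtain ⟨s, hs⟩ := (Submodule.fg_iff_finiteDimensional W).2 inferInstance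
  classical
  by_cases hne : s.Nonempty
  · obtain ⟨x₀, -, hx₀⟩ := s.exists_max_image (fun x => WithZero.log (v.val x)) hne
    refine ⟨-(max (WithZero.log (v.val x₀)) 0), le_antisymm (cut_le v W _) ?_⟩
    conv_lhs => rw [← hs]
    rw [Submodule.span_le]
    intro x hx
    have hxW : x ∈ W := by rw [← hs]; exact Submodule.subset_span hx
    refine ⟨hxW, ?_⟩
    by_cases h0 : x = 0
    · rw [h0, map_zero]; exact zero_le
    have h7 : v.val x ≠ 0 := by simpa using h0
    rw [← WithZero.exp_log h7, WithZero.exp_le_exp, neg_neg]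
    exact (hx₀ x hx).trans (le_max_left _ _)
  · rw [not_nonempty_iff_eq_empty] at hne
    refine ⟨0, ?_⟩
    have hW : W = ⊥ := by rw [← hs, hne]; simp
    rw [hW, eq_bot_iff]
    exact cut_le v ⊥ 0

lemma exists_cut_bot (W : Submodule F L) [FiniteDimensional F W] : ∃ i₁ : ℤ, ∀ i ≥ i₁, cut v W i = ⊥ := by
  -- the dimensions stabilise
  classical
  have hanti : Antitone fun n : ℕ => finrank F (cut v W (n : ℤ)) := by
    intro m n hmn
    haveI : FiniteDimensional F (cut v W (m : ℤ)) := Submodule.finiteDimensional_of_le (cut_le v W _)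
    exact Submodule.finrank_mono (cut_antitone v W (by exact_mod_cast hmn))
  obtain ⟨n₀, hn₀⟩ : ∃ n₀ : ℕ, ∀ n ≥ n₀, finrank F (cut v W (n : ℤ)) = finrank F (cut v W (n₀ : ℤ)) := by
    obtain ⟨n₀, -, hmin⟩ := WellFounded.has_min (measure fun n : ℕ => finrank F (cut v W (n : ℤ))).wf
      Set.univ ⟨0, trivial⟩
    refine ⟨n₀, fun n hn => le_antisymm (hanti hn) ?_⟩
    have := hmin n trivial
    exact not_lt.1 this
  have hstab : ∀ n ≥ n₀, cut v W (n : ℤ) = cut v W (n₀ : ℤ) := by
    intro n hn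
    haveI : FiniteDimensional F (cut v W (n₀ : ℤ)) := Submodule.finiteDimensional_of_le (cut_le v W _)
    exact Submodule.eq_of_le_of_finrank_eq (cut_antitone v W (by exact_mod_cast hn)) (hn₀ n hn)
  have hbot : cut v W (n₀ : ℤ) = ⊥ := by
    rw [eq_bot_iff]
    intro x hx
    rw [Submodule.mem_bot]
    by_contra h0
    have h7 : v.val x ≠ 0 := by simpa using h0
    set n := max n₀ (1 - WithZero.log (v.val x)).toNat with hn
    have h1 : x ∈ cut v W (n : ℤ) := by rw [hstab n (le_max_left _ _)]; exact hx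
    have h2 := h1.2
    rw [← WithZero.exp_log h7, WithZero.exp_le_exp] at h2
    have h3 : (1 - WithZero.log (v.val x)).toNat ≤ n := le_max_right _ _
    omega
  refine ⟨n₀, fun i hi => ?_⟩
  rw [eq_bot_iff, ← hbot]
  exact cut_antitone v W hi

lemma finrank_cut_add (W : Submodule F L) [FiniteDimensional F W] (i : ℤ) (n : ℕ) :
    finrank F (cut v W i) = ∑ j ∈ range n, finrank F (leaf v hπ W (i + j)) +
      finrank F (cut v W (i + n)) := by
  induction n with
  | zero =>
    have e : i + ((0 : ℕ) : ℤ) = i := by simp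
    rw [e, range_zero, sum_empty, zero_add]
  | succ n ih =>
    have e : i + ((n + 1 : ℕ) : ℤ) = i + n + 1 := by push_cast; ring
    rw [ih, finrank_cut v hπ W (i + n), sum_range_succ, e, ← add_assoc]

/-- the set of the indices of the nonzero leaves -/
def sup (W : Submodule F L) : Set ℤ := {i | leaf v hπ W i ≠ ⊥}

lemma leaf_eq_bot_of_cut (W : Submodule F L) (i : ℤ) (h : cut v W i = ⊥) : leaf v hπ W i = ⊥ := by
  rw [eq_bot_iff]
  rintro r ⟨x, rfl⟩
  have hx : (x : L) ∈ (⊥ : Submodule F L) := h.le x.2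
  have : x = 0 := Subtype.ext ((Submodule.mem_bot F).1 hx)
  rw [this, map_zero]
  exact Submodule.zero_mem _

lemma leaf_eq_bot_of_cut_eq (W : Submodule F L) (i : ℤ) (h : cut v W (i + 1) = W) :
    leaf v hπ W i = ⊥ := by
  rw [eq_bot_iff]
  rintro r ⟨x, rfl⟩
  have hx : (x : L) ∈ cut v W (i + 1) := by rw [h]; exact x.2.1
  rw [(lam_eq_zero_iff v hπ W i x).2 hx]
  exact Submodule.zero_mem _

lemma exists_bounds (W : Submodule F L) [FiniteDimensional F W] : ∃ (i₀ : ℤ) (n : ℕ),
    cut v W i₀ = W ∧ cut v W (i₀ + n) = ⊥ ∧ ∀ i, leaf v hπ W i ≠ ⊥ → ∃ j < n, i = i₀ + (j : ℕ) := by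
  obtain ⟨i₀, h0⟩ := exists_cut_eq v W
  obtain ⟨i₁, h1⟩ := exists_cut_bot v W
  refine ⟨i₀, (i₁ - i₀).toNat, h0, h1 _ (by omega), ?_⟩
  intro i hi
  have h2 : i₀ ≤ i := by
    by_contra hlt
    apply hi
    apply leaf_eq_bot_of_cut_eq
    refine le_antisymm (cut_le v W _) ?_
    conv_lhs => rw [← h0]
    exact cut_antitone v W (by omega)
  have h3 : i < i₁ := by
    by_contra hge
    exact hi (leaf_eq_bot_of_cut v hπ W i (h1 i (by omega)))
  exact ⟨(i - i₀).toNat, by omega, by omega⟩

lemma sup_finite (W : Submodule F L) [FiniteDimensional F W] : (sup v hπ W).Finite := by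
  obtain ⟨i₀, n, -, -, h⟩ := exists_bounds v hπ W
  refine ((range n).image fun j : ℕ => i₀ + (j : ℤ)).finite_toSet.subset ?_
  intro i hi
  obtain ⟨j, hj, rfl⟩ := h i hi
  rw [mem_coe, mem_image]
  exact ⟨j, mem_range.mpr hj, rfl⟩

/-- the dimension is the sum of the dimensions of the leaves -/
lemma finrank_eq_sum (W : Submodule F L) [FiniteDimensional F W] (S : Finset ℤ)
    (hS : sup v hπ W ⊆ S) : finrank F W = ∑ i ∈ S, finrank F (leaf v hπ W i) := by
  classical
  obtain ⟨i₀, n, h0, h1, h2⟩ := exists_bounds v hπ W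
  have h3 := finrank_cut_add v hπ W i₀ n
  rw [h0, h1, finrank_bot, add_zero] at h3
  rw [h3]
  have hinj : Set.InjOn (fun j : ℕ => i₀ + (j : ℤ)) (range n : Set ℕ) := by
    intro a _ b _ hab
    simpa using hab
  rw [← sum_image (f := fun i => finrank F (leaf v hπ W i)) (g := fun j : ℕ => i₀ + (j : ℤ)) hinj]
  set T := (range n).image fun j : ℕ => i₀ + (j : ℤ) with hT
  have hz : ∀ i, i ∉ sup v hπ W → finrank F (leaf v hπ W i) = 0 := by
    intro i hi
    have : leaf v hπ W i = ⊥ := by
      by_contra h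
      exact hi h
    rw [this, finrank_bot]
  rw [← sum_subset (s₁ := T ∩ S) (s₂ := T) inter_subset_left,
    ← sum_subset (s₁ := T ∩ S) (s₂ := S) inter_subset_right]
  · intro i hi hi'
    apply hz
    intro h
    obtain ⟨j, hj, rfl⟩ := h2 i h
    apply hi'
    rw [mem_inter]
    exact ⟨mem_image_of_mem _ (mem_range.mpr hj), hi⟩
  · intro i hi hi'
    apply hz
    intro h
    apply hi'
    rw [mem_inter]
    exact ⟨hi, hS h⟩

lemma sum_le_finrank (W : Submodule F L) [FiniteDimensional F W] (S : Finset ℤ) :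
    ∑ i ∈ S, finrank F (leaf v hπ W i) ≤ finrank F W := by
  classical
  rw [finrank_eq_sum v hπ W ((sup_finite v hπ W).toFinset ∪ S) (by
    intro i hi
    rw [coe_union]
    left
    simpa using hi)]
  exact sum_le_sum_of_subset subset_union_right

/-- products of leaves -/
lemma leaf_mul_le (W W' : Submodule F L) (i j : ℤ) :
    leaf v hπ W i * leaf v hπ W' j ≤ leaf v hπ (W * W') (i + j) := by
  rw [Submodule.mul_le]
  intro r hr r' hr'
  rw [mem_leaf] at hr hr' ⊢
  obtain ⟨x, hx, hx', rfl⟩ := hr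
  obtain ⟨y, hy, hy', rfl⟩ := hr'
  have hπ0 : π ≠ 0 := by
    intro h
    rw [h, map_zero] at hπ
    exact WithZero.exp_ne_zero hπ.symm
  refine ⟨x * y, Submodule.mul_mem_mul hx hy, ?_, ?_⟩
  · rw [map_mul, neg_add, WithZero.exp_add]
    gcongr
  · rw [← v.res_mul (mem_ring_of_cut v hπ hx') (mem_ring_of_cut v hπ hy')]
    congr 1
    rw [neg_add, zpow_add₀ hπ0]
    ring

lemma leaf_pow_le (W : Submodule F L) (i : ℤ) (n : ℕ) :
    leaf v hπ W i ^ n ≤ leaf v hπ (W ^ n) (n * i) := by
  induction n with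
  | zero =>
    rw [pow_zero, pow_zero, Submodule.one_le, mem_leaf]
    refine ⟨1, Submodule.one_le.1 le_rfl, ?_, ?_⟩
    · simp
    · simp [v.res_one]
  | succ n ih =>
    rw [pow_succ, pow_succ]
    calc leaf v hπ W i ^ n * leaf v hπ W i ≤ leaf v hπ (W ^ n) (n * i) * leaf v hπ W i := by gcongr
      _ ≤ leaf v hπ (W ^ n * W) (n * i + i) := leaf_mul_le v hπ _ _ _ _
      _ = _ := by
        congr 1
        push_cast
        ring

lemma leaf_mono {W W' : Submodule F L} (h : W ≤ W') (i : ℤ) : leaf v hπ W i ≤ leaf v hπ W' i := by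
  intro r hr
  rw [mem_leaf] at hr ⊢
  obtain ⟨x, hx, h1, h2⟩ := hr
  exact ⟨x, h hx, h1, h2⟩

end leaves

end Pool.Agent.Helper37.LR
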